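import Pool.Agent.H37.DEN.TP

/-!
# Row CRD of den_modules
-/

set_option autoImplicit false

open Pool.Agent.H37.DEN
open Pool.Agent.H55.FFM (Vs PD VM deh trh)

namespace Pool.Agent.H72.DEN

/-- traces of integral elements -/
theorem trace_int (k K L : Type) [Field k] [Field K] [Field L] [Algebra k K] [Algebra k L]
    (τ : K →ₐ[k] L) (R : Subalgebra k K)
    (hfin : 1 ≤ @Module.finrank K L _ _ (τ : K →+* L).toAlgebra.toModule) (x : L)
    (hx : IsIntegral (R.map τ) x) :
    IsIntegral R (@Algebra.trace K L _ _ (τ : K →+* L).toAlgebra x) := by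
  letI : Algebra K L := (τ : K →+* L).toAlgebra
  haveI : FiniteDimensional K L := FiniteDimensional.of_finrank_pos hfin
  -- the map onto the image
  let f : R →+* (R.map τ) :=
    { toFun := fun r => ⟨τ r, ⟨r, r.2, rfl⟩⟩
      map_one' := Subtype.ext (map_one τ)
      map_mul' := fun a b => Subtype.ext (map_mul τ (a : K) (b : K))
      map_zero' := Subtype.ext (map_zero τ)
      map_add' := fun a b => Subtype.ext (map_add τ (a : K) (b : K)) }
  have hfs : Function.Surjective f := by
    rintro ⟨y, r, hr, rfl⟩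
    exact ⟨⟨r, hr⟩, rfl⟩
  letI : Algebra R (R.map τ) := f.toAlgebra
  haveI : IsScalarTower R (R.map τ) L := IsScalarTower.of_algebraMap_eq (fun r => rfl)
  haveI : Algebra.IsIntegral R (R.map τ) := Algebra.isIntegral_of_surjective hfs
  have h1 : IsIntegral R x := isIntegral_trans x hx
  exact Algebra.isIntegral_trace h1

theorem pf_CRD (hITG : Pool.Agent.H55.FFM.T_ITG) (hINQ : Pool.Agent.H55.FFM.T_INQ) :
    T_CRD := by
  intro k F _ _ _ _ _ R S _ v τ E hCv hPD hR hdeh hE hcl
  have h1 : ∀ q ∈ R, trh (τ : F →+* F) (q / 1) ∈ R := by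
    intro q hq
    rw [div_one]
    refine hcl _ ?_
    have hfin : 1 ≤ deh (τ : F →+* F) := by rw [hdeh]; omega
    exact trace_int k F F τ R hfin q (hITG k F R τ hCv hR hfin q hq)
  have h2 := hINQ k F R S v τ E 1 hCv hPD hR hdeh hE R.one_mem one_ne_zero h1
  have h3 : ∀ s, v s 1 = 0 := by
    intro s
    have := hPD.cst s 1 one_ne_zero
    rwa [map_one] at this
  simp only [h3, Finset.sum_const_zero, neg_zero] at h2
  have hE' : (1 : ℤ) ≤ (E : ℤ) - 1 := by
    have : (2 : ℤ) ≤ E := by exact_mod_cast hE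
    omega
  by_contra hcon
  push Not at hcon
  have h4 : (3 : ℤ) ≤ Fintype.card S := by exact_mod_cast hcon
  nlinarith

end Pool.Agent.H72.DEN
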