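import Pool.Agent.H37.DEN.Targets

/-!
# Rows SPC, KON of den_modules
-/

set_option autoImplicit false

open MvPolynomial Filter
open Pool.Agent.H18.HIT Pool.Agent.H8.TD Pool.Agent.H37.DEN

namespace Pool.Agent.H72.DEN

theorem pl_spec {k : Type} [Field k] (x : LaurentSeries k) (b : ℕ) (h : pl x ≤ b) (n : ℤ)
    (hn : n < -(b : ℤ)) : x.coeff n = 0 := by
  apply HahnSeries.coeff_eq_zero_of_lt_order
  unfold pl at h
  have h1 : -x.order ≤ (-x.order).toNat := Int.self_le_toNat _
  have h2 : ((-x.order).toNat : ℤ) ≤ b := by exact_mod_cast h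
  omega

theorem order_nonneg_of {k : Type} [Field k] (x : LaurentSeries k) (hx : x ≠ 0)
    (h : ∀ n : ℤ, n < 0 → x.coeff n = 0) : 0 ≤ x.order := by
  by_contra hc
  exact HahnSeries.coeff_order_eq_zero.not.2 hx (h _ (not_le.1 hc))

theorem order_pos_of {k : Type} [Field k] (x : LaurentSeries k) (hx : x ≠ 0)
    (h : ∀ n : ℤ, n < 1 → x.coeff n = 0) : 1 ≤ x.order := by
  by_contra hc
  exact HahnSeries.coeff_order_eq_zero.not.2 hx (h _ (not_le.1 hc))

theorem algmap_eq {k : Type} [Field k] (c : k) :
    algebraMap k (LaurentSeries k) c = HahnSeries.C c := by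
  rw [HahnSeries.algebraMap_apply']
  exact HahnSeries.ofPowerSeries_C c

theorem coeff_algmap {k : Type} [Field k] (c : k) (n : ℤ) :
    (algebraMap k (LaurentSeries k) c).coeff n = if n = 0 then c else 0 := by
  rw [algmap_eq, HahnSeries.C_apply, HahnSeries.coeff_single]
  by_cases h : n = 0 <;> simp [h]

theorem e_pos {k : Type} [Field k] {T : Tup 3 k} {e m : ℕ} (C : Cv T e m) (i : Fin m) :
    1 ≤ e := by
  by_contra hc
  have he : e = 0 := by omega
  subst he
  have h := C.pow i 1
  rw [map_one, map_one, map_one] at h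
  have h1 := (h 1).1
  simp only [Nat.cast_zero, zero_mul] at h1
  simp [HahnSeries.coeff_one] at h1

theorem pf_SPC (hPOL : T_POL) : T_SPC := by
  classical
  intro k _ T e m C i q r M hM hr
  have he := e_pos C i
  obtain ⟨-, hpl, -, -, -⟩ := hPOL k T e m C he
  let L : Fin m → ℤ → (Po 3 k →ₗ[k] k) := fun i' n =>
    { toFun := fun p => (C.ch i' p).coeff n
      map_add' := fun p p' => by rw [map_add, HahnSeries.coeff_add]
      map_smul' := fun a p => by
        rw [MvPolynomial.smul_eq_C_mul, map_mul, ← MvPolynomial.algebraMap_eq, AlgHom.commutes,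
          algmap_eq, HahnSeries.C_mul_eq_smul, HahnSeries.coeff_smul]
        rfl }
  let idx : Type := (Σ i' : Fin m, Fin (q * dl (C.ch i'))) ⊕ Unit
  let Φ : (Fin r → k) →ₗ[k] (idx → k) := LinearMap.pi fun x =>
    match x with
    | Sum.inl ⟨i', n⟩ => (L i' (-(((n : ℕ) : ℤ) + 1))).comp (Fintype.linearCombination k M)
    | Sum.inr _ => (L i 0).comp (Fintype.linearCombination k M)
  have hcard : Fintype.card idx = q * C.dlt + 1 := by
    change Fintype.card ((Σ i' : Fin m, Fin (q * dl (C.ch i'))) ⊕ Unit) = _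
    rw [Fintype.card_sum, Fintype.card_sigma, Fintype.card_unit]
    simp only [Fintype.card_fin]
    rw [← Finset.mul_sum]
    rfl
  have hker : LinearMap.ker Φ ≠ ⊥ := by
    apply LinearMap.ker_ne_bot_of_finrank_lt
    rw [Module.finrank_fintype_fun_eq_card, Module.finrank_fin_fun, hcard]
    exact hr
  obtain ⟨c, hc, hc0⟩ := (Submodule.ne_bot_iff _).1 hker
  refine ⟨c, hc0, ?_⟩
  have hsum : ∑ l, MvPolynomial.C (c l) * M l = Fintype.linearCombination k M c := by
    rw [Fintype.linearCombination_apply]
    exact Finset.sum_congr rfl fun l _ => MvPolynomial.C_mul'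
  have hdeg : (∑ l, MvPolynomial.C (c l) * M l).totalDegree ≤ q := by
    refine MvPolynomial.totalDegree_finsetSum_le fun l _ => ?_
    refine (MvPolynomial.totalDegree_mul _ _).trans ?_
    rw [MvPolynomial.totalDegree_C, zero_add]
    exact hM l
  set P : Po 3 k := ∑ l, MvPolynomial.C (c l) * M l with hP
  rw [LinearMap.mem_ker] at hc
  have hneg : ∀ (i' : Fin m) (n : ℤ), n < 0 → (C.ch i' P).coeff n = 0 := by
    intro i' n hn
    by_cases hlow : n < -((q * dl (C.ch i') : ℕ) : ℤ)
    · refine pl_spec _ _ ?_ n hlow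
      exact (hpl i' P).trans (Nat.mul_le_mul_right _ hdeg)
    · push Not at hlow
      obtain ⟨a, ha⟩ := Int.eq_ofNat_of_zero_le (show 0 ≤ -n - 1 by omega)
      have ha2 : a < q * dl (C.ch i') := by
        have : (a : ℤ) < ((q * dl (C.ch i') : ℕ) : ℤ) := by omega
        exact_mod_cast this
      have h1 := congrFun hc (Sum.inl ⟨i', ⟨a, ha2⟩⟩)
      change (C.ch i' (Fintype.linearCombination k M c)).coeff (-((a : ℤ) + 1)) = 0 at h1
      rw [← hsum] at h1
      rw [show n = -((a : ℤ) + 1) by omega]
      exact h1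
  have hzero : (C.ch i P).coeff 0 = 0 := by
    have h1 := congrFun hc (Sum.inr ())
    change (C.ch i (Fintype.linearCombination k M c)).coeff 0 = 0 at h1
    rwa [← hsum] at h1
  by_cases hall : ∀ i', C.ch i' P ≠ 0
  · exfalso
    have h1 := C.sum P hall
    have h2 : ∀ i', 0 ≤ (C.ch i' P).order := fun i' =>
      order_nonneg_of _ (hall i') (hneg i')
    have h3 : 1 ≤ (C.ch i P).order := by
      refine order_pos_of _ (hall i) fun n hn => ?_
      rcases lt_or_eq_of_le (show n ≤ 0 by omega) with h | h
      · exact hneg i n h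
      · rw [h]; exact hzero
    have h4 : (C.ch i P).order ≤ ∑ i', (C.ch i' P).order :=
      Finset.single_le_sum (f := fun i' => (C.ch i' P).order) (fun i' _ => h2 i')
        (Finset.mem_univ i)
    omega
  · push Not at hall
    obtain ⟨i', hi'⟩ := hall
    exact C.ker i' i P hi'

theorem pf_KON : T_KON := by
  classical
  intro k _ T τ e m S U C hF
  have hfst : ∀ q : Po 3 k, (∀ᶠ s in (U : Filter S), (C s).pol q = 0) →
      ∃ c : k, q = MvPolynomial.C c := by
    intro q hq
    have hP : aeval T q - q = 0 := by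
      by_contra hP
      obtain ⟨s, hs1, hs2⟩ := (hq.and (hF.gen _ hP)).exists
      set D := C s with hD
      have hm : 0 < m := hF.one
      let i0 : Fin m := ⟨0, hm⟩
      have he := e_pos D i0
      have hpl : ∀ i, pl (D.ch i q) = 0 := by
        intro i
        exact (Finset.sum_eq_zero_iff.1 hs1) i (Finset.mem_univ i)
      have hneg : ∀ i (n : ℤ), n < 0 → (D.ch i q).coeff n = 0 := fun i n hn =>
        pl_spec _ 0 (le_of_eq (hpl i)) n (by simpa using hn)
      set c : k := (D.ch i0 q).coeff 0 with hc
      have hch : ∀ i (n : ℤ), (D.ch i (q - MvPolynomial.C c)).coeff n =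
          (D.ch i q).coeff n - if n = 0 then c else 0 := by
        intro i n
        rw [map_sub, HahnSeries.coeff_sub]
        congr 1
        rw [← MvPolynomial.algebraMap_eq, AlgHom.commutes, coeff_algmap]
      have hall : ∃ i, D.ch i (q - MvPolynomial.C c) = 0 := by
        by_contra hcon
        push Not at hcon
        have h1 := D.sum _ hcon
        have h2 : ∀ i, 0 ≤ (D.ch i (q - MvPolynomial.C c)).order := by
          intro i
          refine order_nonneg_of _ (hcon i) fun n hn => ?_
          rw [hch, hneg i n hn, if_neg hn.ne, sub_zero]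
        have h3 : 1 ≤ (D.ch i0 (q - MvPolynomial.C c)).order := by
          refine order_pos_of _ (hcon i0) fun n hn => ?_
          rw [hch]
          rcases lt_or_eq_of_le (show n ≤ 0 by omega) with h | h
          · rw [hneg i0 n h, if_neg h.ne, sub_zero]
          · rw [h, if_pos rfl, ← hc, sub_self]
        have h4 : (D.ch i0 (q - MvPolynomial.C c)).order ≤
            ∑ i', (D.ch i' (q - MvPolynomial.C c)).order :=
          Finset.single_le_sum (f := fun i' => (D.ch i' (q - MvPolynomial.C c)).order)
            (fun i' _ => h2 i') (Finset.mem_univ i0)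
        omega
      obtain ⟨i1, hi1⟩ := hall
      have hz := D.ker i1 i0 _ hi1
      have hx : ∀ n : ℤ, (D.ch i0 q).coeff n = if n = 0 then c else 0 := by
        intro n
        have h1 := hch i0 n
        rw [hz, HahnSeries.coeff_zero] at h1
        exact (sub_eq_zero.1 h1.symm)
      refine hs2 i0 ?_
      rw [map_sub, sub_eq_zero]
      ext n
      rw [hx n]
      have he0 : (e : ℤ) ≠ 0 := by
        have : (1 : ℤ) ≤ e := by exact_mod_cast he
        omega
      by_cases hn : (e : ℤ) ∣ n
      · obtain ⟨a, rfl⟩ := hn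
        rw [(D.pow i0 q a).1, hx a]
        by_cases ha : a = 0
        · simp [ha]
        · rw [if_neg ha, if_neg (mul_ne_zero he0 ha)]
      · rw [(D.pow i0 q n).2 hn, if_neg]
        rintro rfl
        exact hn (dvd_zero _)
    have h1 : τ (ι q) = ι q := by
      rw [hF.fld.map q, sub_eq_zero.1 hP]
    obtain ⟨c, hc⟩ := hF.fld.inv _ h1
    refine ⟨c, ?_⟩
    have h2 : ι q = ι (MvPolynomial.C c) := by
      rw [hc]
      unfold ι
      rw [← MvPolynomial.algebraMap_eq, ← IsScalarTower.algebraMap_apply]
    exact IsFractionRing.injective (Po 3 k) (K3 k) h2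
  refine ⟨hfst, ?_⟩
  by_contra hcon
  rw [← Ultrafilter.eventually_not] at hcon
  obtain ⟨c, hc⟩ := hfst (X 0) (by
    refine hcon.mono fun s hs => ?_
    have h1 : (C s).dlt = 0 := by omega
    unfold Cv.dlt at h1
    unfold Cv.pol
    refine Finset.sum_eq_zero fun i _ => ?_
    have h2 := (Finset.sum_eq_zero_iff.1 h1) i (Finset.mem_univ i)
    unfold Pool.Agent.H37.DEN.dl at h2
    have h3 : pl ((C s).ch i (X 0)) ≤
        Finset.univ.sup fun j => pl ((C s).ch i (X j)) :=
      Finset.le_sup (f := fun j => pl ((C s).ch i (X j))) (Finset.mem_univ 0)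
    omega)
  have h1 := congrArg MvPolynomial.totalDegree hc
  rw [MvPolynomial.totalDegree_X, MvPolynomial.totalDegree_C] at h1
  omega

end Pool.Agent.H72.DEN
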