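import Pool.Agent.H37.DEN.Targets

/-!
# Rows SUM, DIV, ORD of den_modules
-/

set_option autoImplicit false

open MvPolynomial Filter
open Pool.Agent.H18.HIT Pool.Agent.H8.TD Pool.Agent.H37.DEN

namespace Pool.Agent.H72.DEN

theorem pf_SUM : T_SUM := by
  classical
  intro k _ τ e Λ _ _ _ V hV
  have hn1 : V (-1 : K3 k) = 0 := by
    have := hV.con (-1) (by simp)
    rwa [map_neg, map_one] at this
  have hn : ∀ z : K3 k, z ≠ 0 → V (-z) = V z := by
    intro z hz
    rw [show -z = (-1) * z by ring, hV.mul _ _ (by simp) hz, hn1, zero_add]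
  have key : ∀ x y : K3 k, x ≠ 0 → y ≠ 0 → V x < V y → x + y ≠ 0 ∧ V (x + y) = V x := by
    intro x y hx hy h
    have h0 : x + y ≠ 0 := by
      intro h1
      have h2 : x = -y := by linear_combination h1
      rw [h2, hn y hy] at h
      exact lt_irrefl _ h
    refine ⟨h0, ?_⟩
    have h1 := hV.add x y hx hy h0
    rw [min_eq_left h.le] at h1
    have h2 := hV.add (x + y) (-y) h0 (neg_ne_zero.2 hy) (by simpa using hx)
    rw [hn y hy, add_neg_cancel_right] at h2
    rcases min_le_iff.1 h2 with h3 | h3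
    · exact le_antisymm h3 h1
    · exact absurd h (not_lt.2 h3)
  refine ⟨key, ?_, ?_⟩
  · intro a b ha hb
    have h1 := hV.mul (a / b) b (div_ne_zero ha hb) hb
    rw [div_mul_cancel₀ a hb] at h1
    rw [h1, add_sub_cancel_right]
  · intro ι' s y
    induction s using Finset.induction_on with
    | empty => intro h; exact absurd h (by simp)
    | insert i T hi ih =>
      intro _ hne hinj
      have hi0 := hne i (Finset.mem_insert_self i T)
      rcases T.eq_empty_or_nonempty with rfl | hT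
      · refine ⟨by simpa using hi0, i, by simp, by simp, fun j hj => ?_⟩
        have : j = i := by simpa using hj
        rw [this]
      · obtain ⟨h0, j, hj, hje, hle⟩ := ih hT (fun l hl => hne l (Finset.mem_insert_of_mem hl))
          (fun l hl l' hl' => hinj l (Finset.mem_insert_of_mem hl) l'
            (Finset.mem_insert_of_mem hl'))
        rw [Finset.sum_insert hi]
        have hne' : V (y i) ≠ V (∑ i ∈ T, y i) := by
          rw [hje]
          intro h
          have := hinj i (Finset.mem_insert_self i T) j (Finset.mem_insert_of_mem hj) h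
          subst this
          exact hi hj
        rcases lt_or_gt_of_ne hne' with h | h
        · obtain ⟨h1, h2⟩ := key _ _ hi0 h0 h
          refine ⟨h1, i, Finset.mem_insert_self i T, h2, fun l hl => ?_⟩
          rcases Finset.mem_insert.1 hl with rfl | hl
          · exact le_rfl
          · rw [hje] at h
            exact h.le.trans (hle l hl)
        · obtain ⟨h1, h2⟩ := key _ _ h0 hi0 h
          rw [add_comm] at h1 h2
          refine ⟨h1, j, Finset.mem_insert_of_mem hj, by rw [h2, hje], fun l hl => ?_⟩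
          rcases Finset.mem_insert.1 hl with rfl | hl
          · rw [← hje]; exact h.le
          · exact hle l hl

theorem ht_mono {k : Type} [Field k] {h : K3 k} {a b : ℕ} (hab : a ≤ b) (hh : Ht h a) :
    Ht h b := by
  obtain ⟨B, C, h1, h2, h3, h4⟩ := hh
  exact ⟨B, C, h1, h2, h3.trans hab, h4.trans hab⟩

theorem pf_DIV (hRDG : T_RDG) (hGNB : T_GNB) (hHTB : T_HTB) : T_DIV := by
  intro k _ T τ e Λ _ _ _ V u hF hV hG h₀ hh₀
  obtain ⟨huni, hval⟩ := hGNB k T τ e Λ V u hF hV hG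
  obtain ⟨C₀, hC₀⟩ := hHTB k T τ e u hF huni
  obtain ⟨hde, heq, -⟩ := (hRDG k).1 h₀
  have hHt0 : Ht h₀ ((nu h₀).totalDegree + (de h₀).totalDegree) :=
    ⟨nu h₀, de h₀, hde, heq, Nat.le_add_right _ _, Nat.le_add_left _ _⟩
  refine ⟨(nu h₀).totalDegree + (de h₀).totalDegree + 2 * C₀ + 2, fun j => ?_⟩
  set C₁ : ℕ := (nu h₀).totalDegree + (de h₀).totalDegree + 2 * C₀ + 2 with hC₁
  induction j with
  | zero =>
    refine ⟨h₀, 0, hh₀, by simp, ht_mono ?_ hHt0⟩
    rw [zero_add, pow_one, hC₁]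
    omega
  | succ j ih =>
    obtain ⟨h, c, hh, hc, hht⟩ := ih
    obtain ⟨a, ha, hab⟩ := hC₀ _ h hht
    obtain ⟨i, hi0, hi⟩ := hval h a hh ha
    refine ⟨a i, c + (e : ℤ) ^ j * ((i : ℕ) : ℤ), hi0, ?_, ht_mono ?_ (hab i)⟩
    · have h1 : (e : ℤ) • V (a i) = V h - ((i : ℕ) : ℤ) • V u := by
        rw [hi, add_sub_cancel_right]
      rw [pow_succ, mul_smul, h1, smul_sub, hc, smul_smul, add_smul]
      abel
    · have h1 : 1 ≤ C₁ ^ (j + 1) := Nat.one_le_pow _ _ (by omega)
      calc C₀ * (C₁ ^ (j + 1) + 1) ≤ C₀ * (C₁ ^ (j + 1) + C₁ ^ (j + 1)) := by gcongr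
        _ = (2 * C₀) * C₁ ^ (j + 1) := by ring
        _ ≤ C₁ * C₁ ^ (j + 1) := Nat.mul_le_mul_right _ (by omega)
        _ = C₁ ^ (j + 1 + 1) := by ring

theorem pf_ORD : T_ORD := by
  intro k _ e x y he hp
  have he0 : (0 : ℤ) < e := by exact_mod_cast he
  have hxy : x = 0 ↔ y = 0 := by
    constructor
    · rintro rfl
      ext n
      rw [HahnSeries.coeff_zero]
      by_cases hn : (e : ℤ) ∣ n
      · obtain ⟨m, rfl⟩ := hn
        rw [(hp m).1, HahnSeries.coeff_zero]
      · exact (hp n).2 hn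
    · rintro rfl
      ext n
      rw [HahnSeries.coeff_zero, ← (hp n).1, HahnSeries.coeff_zero]
  refine ⟨hxy, ?_⟩
  by_cases hx : x = 0
  · have hy := hxy.1 hx
    subst hx
    subst hy
    simp
  · have hy : y ≠ 0 := fun h => hx (hxy.2 h)
    have hxo : x.coeff x.order ≠ 0 := HahnSeries.coeff_order_eq_zero.not.2 hx
    have hyo : y.coeff y.order ≠ 0 := HahnSeries.coeff_order_eq_zero.not.2 hy
    have h1 : y.order ≤ e * x.order := by
      apply HahnSeries.order_le_of_coeff_ne_zero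
      rw [(hp x.order).1]
      exact hxo
    have h2 : (e : ℤ) * x.order ≤ y.order := by
      by_cases hn : (e : ℤ) ∣ y.order
      · obtain ⟨m, hm⟩ := hn
        rw [hm]
        apply mul_le_mul_of_nonneg_left _ he0.le
        apply HahnSeries.order_le_of_coeff_ne_zero
        rw [← (hp m).1, ← hm]
        exact hyo
      · exact absurd ((hp _).2 hn) hyo
    have h3 : y.order = e * x.order := le_antisymm h1 h2
    exact ⟨h3, by rw [h3, (hp x.order).1]⟩

theorem six_choose (n : ℕ) : 6 * (((n + 3).choose 3 : ℕ) : ℤ) = (n + 1) * (n + 2) * (n + 3) := by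
  induction n with
  | zero => norm_num
  | succ n ih =>
    have h1 : (n + 1 + 3).choose 3 = (n + 3).choose 2 + (n + 3).choose 3 := by
      rw [show n + 1 + 3 = (n + 3) + 1 by ring, Nat.choose_succ_succ' (n + 3) 2]
    have h2 : 2 * ((n + 3).choose 2 : ℤ) = (n + 3) * (n + 2) := by
      have h3 := Nat.choose_two_right (n + 3)
      have h4 : (n + 3) * (n + 3 - 1) = 2 * (n + 3).choose 2 := by
        rw [h3]
        have h5 : 2 ∣ (n + 3) * (n + 3 - 1) := by
          have := (Nat.even_mul_pred_self (n + 3)).two_dvd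
          exact this
        omega
      have h6 : n + 3 - 1 = n + 2 := by omega
      rw [h6] at h4
      have h7 : (((n + 3) * (n + 2) : ℕ) : ℤ) = ((2 * (n + 3).choose 2 : ℕ) : ℤ) := by
        rw [h4]
      push_cast at h7
      linarith
    rw [h1]
    push_cast
    linear_combination ih + 3 * h2

/-- the inequality between integers -/
theorem nmj_core (p q D α c J a b r A B G H : ℤ) (hq0 : 0 ≤ q) (hr0 : 0 ≤ r) (hb0 : 0 ≤ b)
    (hc0 : 0 ≤ c) (hD0 : 0 ≤ D) (hb' : a = p + b) (hr' : p = q + r) (ha' : a = α * J)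
    (hα1 : 1 ≤ α) (hJ1 : 3 * p * (c + 3 + p) * (2 * α + c + 3) + 6 * D * (α + 2) + p + 1 ≤ J)
    (hDα : 6 * D + 1 ≤ α ^ 2)
    (f1 : 6 * A = (a + c + 1) * (a + c + 2) * (a + c + 3))
    (f2 : 6 * B = (b + r + c + 1) * (b + r + c + 2) * (b + r + c + 3))
    (f3 : 6 * G = (a + 1) * (a + 2) * (a + 3))
    (f4 : 6 * H = (b + 1) * (b + 2) * (b + 3)) :
    J * (A - B + (J + 1) * ((a + 1) * D)) < G + J * (G - H) := by
  have hp0 : 0 ≤ p := by linarith
  have ha0 : 0 ≤ a := by linarith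
  have hK0 : 0 ≤ 3 * p * (c + 3 + p) * (2 * α + c + 3) + 6 * D * (α + 2) := by positivity
  have hJpos : 1 ≤ J := by linarith
  -- the upper bound
  have hU : 6 * A - 6 * B ≤ 3 * p * (a + c + 3) ^ 2 := by
    rw [f1, f2]
    have hx : a + c = q + (b + r + c) := by linarith
    set y : ℤ := b + r + c with hy
    have hy0 : 0 ≤ y := by positivity
    have e3 : (a + c + 1) * (a + c + 2) * (a + c + 3) - (y + 1) * (y + 2) * (y + 3) =
        q * ((a + c) ^ 2 + (a + c) * y + y ^ 2 + 6 * (a + c + y) + 11) := by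
      rw [hx]; ring
    rw [e3]
    have hyx : y ≤ a + c := by linarith
    have e4 : (a + c) ^ 2 + (a + c) * y + y ^ 2 + 6 * (a + c + y) + 11 ≤
        3 * (a + c + 3) ^ 2 := by nlinarith
    have e5 : 0 ≤ 3 * (a + c + 3) ^ 2 := by positivity
    calc q * ((a + c) ^ 2 + (a + c) * y + y ^ 2 + 6 * (a + c + y) + 11)
        ≤ q * (3 * (a + c + 3) ^ 2) := mul_le_mul_of_nonneg_left e4 hq0
      _ ≤ p * (3 * (a + c + 3) ^ 2) := mul_le_mul_of_nonneg_right (by linarith) e5
      _ = 3 * p * (a + c + 3) ^ 2 := by ring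
  have hL : 3 * p * b ^ 2 ≤ 6 * G - 6 * H := by
    rw [f3, f4]
    have e3 : (a + 1) * (a + 2) * (a + 3) - (b + 1) * (b + 2) * (b + 3) =
        p * (a ^ 2 + a * b + b ^ 2 + 6 * (a + b) + 11) := by
      rw [hb']; ring
    rw [e3]
    have hba : b ≤ a := by linarith
    have e4 : 3 * b ^ 2 ≤ a ^ 2 + a * b + b ^ 2 + 6 * (a + b) + 11 := by nlinarith
    calc 3 * p * b ^ 2 = p * (3 * b ^ 2) := by ring
      _ ≤ _ := mul_le_mul_of_nonneg_left e4 hp0
  have hT : a ^ 3 ≤ 6 * G := by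
    rw [f3]; nlinarith [mul_nonneg ha0 ha0]
  -- differences of squares
  have hsq : 3 * p * (a + c + 3) ^ 2 - 3 * p * b ^ 2 ≤
      3 * p * (c + 3 + p) * (2 * α + c + 3) * J := by
    have e3 : (a + c + 3) ^ 2 - b ^ 2 = (c + 3 + p) * (2 * a + c + 3 - p) := by
      have : b = a - p := by linarith
      rw [this]; ring
    have e4 : 2 * a + c + 3 - p ≤ (2 * α + c + 3) * J := by
      rw [ha']
      nlinarith
    have e5 : 0 ≤ 3 * p * (c + 3 + p) := by positivity
    calc 3 * p * (a + c + 3) ^ 2 - 3 * p * b ^ 2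
        = 3 * p * ((a + c + 3) ^ 2 - b ^ 2) := by ring
      _ = 3 * p * (c + 3 + p) * (2 * a + c + 3 - p) := by rw [e3]; ring
      _ ≤ 3 * p * (c + 3 + p) * ((2 * α + c + 3) * J) := mul_le_mul_of_nonneg_left e4 e5
      _ = _ := by ring
  have hlin : (J + 1) * (a + 1) * (6 * D) ≤ 6 * D * (α * J ^ 2 + (α + 2) * J) := by
    rw [ha']
    have e3 : (J + 1) * (α * J + 1) ≤ α * J ^ 2 + (α + 2) * J := by nlinarith
    calc (J + 1) * (α * J + 1) * (6 * D) ≤ (α * J ^ 2 + (α + 2) * J) * (6 * D) :=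
          mul_le_mul_of_nonneg_right e3 (by positivity)
      _ = _ := by ring
  have hcube : (6 * D + 1) * α * J ^ 3 ≤ a ^ 3 := by
    rw [ha', mul_pow]
    have e3 : (6 * D + 1) * α ≤ α ^ 3 := by nlinarith
    exact mul_le_mul_of_nonneg_right e3 (by positivity)
  set K1 : ℤ := 3 * p * (c + 3 + p) * (2 * α + c + 3) with hK1
  have hJ0 : 0 ≤ J := by linarith
  have s1 : J * (6 * A - 6 * B) ≤ J * (3 * p * (a + c + 3) ^ 2) :=
    mul_le_mul_of_nonneg_left hU hJ0
  have s2 : J * (3 * p * b ^ 2) ≤ J * (6 * G - 6 * H) := mul_le_mul_of_nonneg_left hL hJ0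
  have s3 : J * (3 * p * (a + c + 3) ^ 2 - 3 * p * b ^ 2) ≤ J * (K1 * J) :=
    mul_le_mul_of_nonneg_left hsq hJ0
  have s4 : J * ((J + 1) * (a + 1) * (6 * D)) ≤
      J * (6 * D * (α * J ^ 2 + (α + 2) * J)) := mul_le_mul_of_nonneg_left hlin hJ0
  have s5 : (K1 + 6 * D * (α + 2)) * J ^ 2 < α * J ^ 3 := by
    have e3 : K1 + 6 * D * (α + 2) < J := by linarith
    have e4 : 0 < J ^ 2 := by positivity
    calc (K1 + 6 * D * (α + 2)) * J ^ 2 < J * J ^ 2 := mul_lt_mul_of_pos_right e3 e4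
      _ = 1 * J ^ 3 := by ring
      _ ≤ α * J ^ 3 := mul_le_mul_of_nonneg_right hα1 (by positivity)
  have fin : 6 * (J * (A - B + (J + 1) * ((a + 1) * D))) < 6 * (G + J * (G - H)) := by
    have t1 : 6 * (J * (A - B + (J + 1) * ((a + 1) * D))) =
        J * (6 * A - 6 * B) + J * ((J + 1) * (a + 1) * (6 * D)) := by ring
    have t2 : 6 * (G + J * (G - H)) = 6 * G + J * (6 * G - 6 * H) := by ring
    rw [t1, t2]
    have t3 : J * (K1 * J) + J * (6 * D * (α * J ^ 2 + (α + 2) * J)) =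
        (K1 + 6 * D * (α + 2)) * J ^ 2 + 6 * D * α * J ^ 3 := by ring
    have t4 : (6 * D + 1) * α * J ^ 3 = 6 * D * α * J ^ 3 + α * J ^ 3 := by
      ring
    have t5 : J * (3 * p * (a + c + 3) ^ 2 - 3 * p * b ^ 2) =
      J * (3 * p * (a + c + 3) ^ 2) - J * (3 * p * b ^ 2) := by ring
    linarith
  linarith

theorem pf_NMJ : T_NMJ := by
  intro p q D α c hq hqp hD
  refine ⟨3 * p * (c + 3 + p) * (2 * α + c + 3) + 6 * D * (α + 2) + p + 1, fun J hJ => ?_⟩
  have hα : 1 ≤ α := by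
    rcases Nat.eq_zero_or_pos α with h | h
    · subst h; simp at hD
    · exact h
  have hJp : p ≤ α * J := by
    calc p ≤ J := by omega
      _ = 1 * J := (one_mul J).symm
      _ ≤ α * J := Nat.mul_le_mul_right J hα
  set a : ℕ := α * J with ha
  obtain ⟨b, hb⟩ := Nat.exists_eq_add_of_le hJp
  obtain ⟨r, hr⟩ := Nat.exists_eq_add_of_le hqp
  have e1 : a + c - q + 3 = (b + r + c) + 3 := by omega
  have e2 : a - p + 3 = b + 3 := by omega
  rw [e1, e2]
  have hm1 : (b + r + c + 3).choose 3 ≤ (a + c + 3).choose 3 :=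
    Nat.choose_le_choose 3 (by omega)
  have hm2 : (b + 3).choose 3 ≤ (a + 3).choose 3 := Nat.choose_le_choose 3 (by omega)
  have f1 := six_choose (a + c)
  have f2 := six_choose (b + r + c)
  have f3 := six_choose a
  have f4 := six_choose b
  rw [← Nat.cast_lt (α := ℤ)]
  push_cast [Nat.cast_sub hm1, Nat.cast_sub hm2]
  push_cast at f1 f2 f3 f4
  exact nmj_core (p : ℤ) (q : ℤ) (D : ℤ) (α : ℤ) (c : ℤ) (J : ℤ) (a : ℤ) (b : ℤ) (r : ℤ)
    _ _ _ _ (Nat.cast_nonneg q) (Nat.cast_nonneg r) (Nat.cast_nonneg b) (Nat.cast_nonneg c)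
    (Nat.cast_nonneg D) (by exact_mod_cast hb) (by exact_mod_cast hr)
    (by rw [ha]; push_cast; ring) (by exact_mod_cast hα) (by exact_mod_cast hJ)
    (by exact_mod_cast hD) f1 f2 f3 f4

end Pool.Agent.H72.DEN
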